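import Pool.Agent.W697.SOA.AC

set_option autoImplicit false

/-!
There is a `Pi^1_1`-sound, `Pi^1_1`-definable extension of `Sigma^1_1-AC_0` that proves its own
`Pi^1_1`-soundness.

The language of second-order arithmetic, its structures, provability, `ACA_0`, the Goedel numbering,
the arithmetizations and the reflection sentence are those of
`Pool/Agent/H986R3/SOADefs.lean` (used there for the negative answer for `Sigma^1_1` definitions).
`Sigma11AC0` (the axioms of `Sigma^1_1-AC_0`) and `TAC` (the set of their universal closures) are in
`Pool/Agent/W697/SOA/AC.lean`, `Pi11Defines` in `Pool/Agent/W697/SOA/Main.lean`.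

Idea. Let `α` be an arithmetical formula defining `T`. Let `τ(a)` say that `α(a)` holds and that
every `Pi^1_1` sentence that has a proof in which the axiom `a` is used and all whose axioms
satisfy `α` is true. This is `Pi^1_1`, it defines `T` in the standard model because `T` is
`Pi^1_1`-sound, and `T` proves that all `Pi^1_1` sentences provable from axioms satisfying `τ` are
true: look at any axiom used in the proof (if there is none, use the reflection for pure logic,
which is a true sentence and an axiom of our `T`).
-/

namespace Pool.Agent.Results.MP_51f008_lc.SelfSound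

open Pool.Agent.H986R3.SOA Pool.Agent.W697.SOA

/-- For every arithmetization `𝒜` of the metamathematics of `L_2` there is a theory `T`, a set of
true sentences of `L_2` that contains the universal closures of all axioms of `Sigma^1_1-AC_0` (so
it proves all these axioms), which is `Pi^1_1`-sound and is defined by a `Pi^1_1` formula `τ` for
which `T` proves the `Pi^1_1` reflection sentence of `τ`. -/
theorem result (𝒜 : Arithmetization) :
    ∃ T : Set Fm, (∀ ψ ∈ T, ψ.IsSentence ∧ std.Holds ψ) ∧ TAC ⊆ T ∧
      (∀ φ, Sigma11AC0 φ → Proves T φ) ∧ Pi11Sound T ∧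
      ∃ τ : Fm, Pi11Defines τ T ∧ Proves T (𝒜.reflection τ) := by
  set T : Set Fm := insert (logicReflection 𝒜) TAC with hT
  have hsent : ∀ ψ ∈ T, ψ.IsSentence := by
    rintro ψ (rfl | h)
    · exact logicReflection_sentence 𝒜
    · exact TAC_sentence ψ h
  have htrue : ∀ ψ ∈ T, std.Holds ψ := by
    rintro ψ (rfl | h)
    · exact logicReflection_true 𝒜
    · exact std_TAC ψ h
  have hsound : Pi11Sound T := fun φ _ h => h std htrue
  have hdef : ∃ α, ArithDefines α T := by
    obtain ⟨α, h1, h2, h3⟩ := exists_fm (P := fun n => ∃ φ ∈ insert (logicReflection 𝒜) TAC,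
      φ.code = n) (TAC_def (logicReflection 𝒜))
    exact ⟨α, h1, h2, h3⟩
  have hL : Proves T (logicReflection 𝒜) := fun M hM => hM _ (Or.inl rfl)
  refine ⟨T, fun ψ h => ⟨hsent ψ h, htrue ψ h⟩, fun ψ h => Or.inr h, ?_, hsound,
    main 𝒜 T hsent hdef hsound hL⟩
  intro φ h M hM
  exact TAC_proves φ h M (fun ψ hψ => hM ψ (Or.inr hψ))

end Pool.Agent.Results.MP_51f008_lc.SelfSound
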